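import Mathlib

set_option autoImplicit false

/-! The two-parameter curve of Klivans and Spielman. -/

namespace SP

/-- the coordinate `i` of the generator: at `z = κ` it is a nonzero constant times
`y ^ (κ ^ i mod p)` -/
noncomputable def ks (F : Type*) [Field F] (n p K : ℕ) (i : Fin n) : MvPolynomial (Fin 2) F :=
  ∑ κ ∈ Finset.range K, (∏ κ' ∈ (Finset.range K).erase κ,
    (MvPolynomial.X 1 - MvPolynomial.C (κ' : F))) * MvPolynomial.X 0 ^ (κ ^ (i : ℕ) % p)

end SP
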