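import Mathlib
import Pool.Agent.Lib.MP_64d474_lc.SP.KSDef69
import Pool.Agent.Lib.MP_64d474_lc.AK.Defs

set_option autoImplicit false

/-! From base points on the Klivans-Spielman curve to explicit integer points. -/

namespace SP

open MvPolynomial

/-- the point of the curve with parameters `y`, `z` -/
def ksPt {R : Type*} [CommRing R] (n p K : ℕ) (y z : R) (i : Fin n) : R :=
  ∑ κ ∈ Finset.range K, (∏ κ' ∈ (Finset.range K).erase κ, (z - (κ' : R))) * y ^ (κ ^ (i : ℕ) % p)

theorem map_ksPt {R S : Type*} [CommRing R] [CommRing S] (φ : R →+* S) (n p K : ℕ) (y z : R)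
    (i : Fin n) : φ (ksPt n p K y z i) = ksPt n p K (φ y) (φ z) i := by
  simp [ksPt, map_sum, map_prod]

theorem ks_eq (F : Type*) [Field F] (n p K : ℕ) (i : Fin n) :
    ks F n p K i = ksPt n p K (X 0) (X 1) i := by
  simp only [ks, ksPt, map_natCast]

theorem eval_ks {F : Type*} [Field F] {n p K : ℕ} (x : Fin 2 → F) (b : MvPolynomial (Fin n) F) :
    eval x (aeval (ks F n p K) b) = eval (fun i => ksPt n p K (x 0) (x 1) i) b := by
  have h : ((aeval x : MvPolynomial (Fin 2) F →ₐ[F] F).comp (aeval (ks F n p K))) =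
      aeval (fun i => ksPt n p K (x 0) (x 1) i) := by
    apply MvPolynomial.algHom_ext
    intro k
    rw [AlgHom.comp_apply, aeval_X, aeval_X, ks_eq]
    have h2 := map_ksPt ((aeval x : MvPolynomial (Fin 2) F →ₐ[F] F).toRingHom) n p K
      (X 0) (X 1) k
    simp only [AlgHom.toRingHom_eq_coe, RingHom.coe_coe, aeval_X] at h2
    exact h2
  have h2 := DFunLike.congr_fun h b
  rw [AlgHom.comp_apply, aeval_eq_eval, aeval_eq_eval] at h2
  exact h2

theorem degreeOf_ksPt {F σ : Type*} [Field F] [DecidableEq σ] {n p K : ℕ} (hp : 0 < p) (a b c : σ)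
    (i : Fin n) : (ksPt n p K (X a : MvPolynomial σ F) (X b) i).degreeOf c ≤
      (if c = a then p - 1 else 0) + (if c = b then K - 1 else 0) := by
  rw [ksPt]
  refine (degreeOf_sum_le _ _ _).trans (Finset.sup_le fun κ hκ => ?_)
  refine (degreeOf_mul_le _ _ _).trans ?_
  rw [add_comm]
  apply add_le_add
  · refine (degreeOf_pow_le _ _ _).trans ?_
    rw [degreeOf_X]
    split_ifs with h1
    · rw [mul_one]
      exact Nat.le_sub_one_of_lt (Nat.mod_lt _ hp)
    · simp
  · refine (degreeOf_prod_le _ _ _).trans ?_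
    have h2 : ∀ κ' ∈ (Finset.range K).erase κ,
        ((X b : MvPolynomial σ F) - (κ' : MvPolynomial σ F)).degreeOf c ≤
          if c = b then 1 else 0 := by
      intro κ' _
      rw [← map_natCast (C : F →+* MvPolynomial σ F)]
      refine (degreeOf_sub_le _ _ _).trans ?_
      rw [degreeOf_X, degreeOf_C]
      split_ifs <;> simp
    refine (Finset.sum_le_sum h2).trans ?_
    rw [Finset.sum_const, Finset.card_erase_of_mem hκ, Finset.card_range]
    split_ifs <;> simp

theorem degreeOf_aeval_le69 {F σ τ : Type*} [Field F] [DecidableEq τ]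
    (g : σ → MvPolynomial τ F)
    (j : τ) (b : ℕ) (hg : ∀ k, (g k).degreeOf j ≤ b) (f : MvPolynomial σ F) :
    (aeval g f).degreeOf j ≤ f.totalDegree * b := by
  rw [aeval_def, eval₂_eq]
  refine (degreeOf_sum_le _ _ _).trans (Finset.sup_le fun d hd => ?_)
  refine (degreeOf_mul_le _ _ _).trans ?_
  have h1 : (algebraMap F (MvPolynomial τ F) (coeff d f)).degreeOf j = 0 := by
    rw [algebraMap_eq]; exact degreeOf_C _ _
  rw [h1, zero_add]
  refine (degreeOf_prod_le _ _ _).trans ?_
  calc ∑ i ∈ d.support, (g i ^ d i).degreeOf j ≤ ∑ i ∈ d.support, d i * b := by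
        refine Finset.sum_le_sum fun i _ => (degreeOf_pow_le _ _ _).trans ?_
        exact Nat.mul_le_mul_left _ (hg i)
    _ = (∑ i ∈ d.support, d i) * b := by rw [Finset.sum_mul]
    _ ≤ f.totalDegree * b := Nat.mul_le_mul_right _ (le_totalDegree hd)

/-- `r` slots for the coordinates in `I`. -/
theorem exists_slots' {R : Type*} [AddCommMonoid R] {n r : ℕ} (hn : 0 < n) (I : Finset (Fin n))
    (hI : I.card ≤ r) (w : Fin n → R) :
    ∃ (J : Fin r → Fin n) (w' : Fin r → R), ∀ i, (∑ j, if J j = i then w' j else 0) =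
      if i ∈ I then w i else 0 := by
  classical
  obtain ⟨f⟩ : Nonempty (I ↪ Fin r) := by
    apply Function.Embedding.nonempty_of_card_le
    rwa [Fintype.card_coe, Fintype.card_fin]
  refine ⟨fun j => if h : ∃ a : I, f a = j then (h.choose : Fin n) else ⟨0, hn⟩,
    fun j => if h : ∃ a : I, f a = j then w (h.choose : Fin n) else 0, fun i => ?_⟩
  have hch : ∀ (a : I) (h : ∃ a' : I, f a' = f a), h.choose = a := fun a h =>
    f.injective h.choose_spec
  have h1 := Fintype.sum_of_injective (fun a : I => f a) f.injective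
    (fun a : I => if (a : Fin n) = i then w a else 0)
    (fun j => if (if h : ∃ a : I, f a = j then (h.choose : Fin n) else ⟨0, hn⟩) = i then
      (if h : ∃ a : I, f a = j then w (h.choose : Fin n) else 0) else 0) (by
      intro j hj
      have : ¬ ∃ a : I, f a = j := fun ⟨a, ha⟩ => hj ⟨a, ha⟩
      rw [dif_neg this, dif_neg this]
      simp) (by
      intro a
      have h2 : ∃ a' : I, f a' = f a := ⟨a, rfl⟩
      simp only [dif_pos h2]
      rw [hch a h2])
  rw [← h1]
  by_cases hi : i ∈ I
  · rw [if_pos hi, Finset.sum_eq_single (⟨i, hi⟩ : I)]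
    · simp
    · intro b _ hb
      rw [if_neg]
      intro h
      exact hb (Subtype.ext h)
    · intro h
      exact absurd (Finset.mem_univ _) h
  · rw [if_neg hi]
    apply Finset.sum_eq_zero
    intro a _
    rw [if_neg]
    rintro rfl
    exact hi a.2

/-- Explicit integer points. -/
theorem hit_sparse {F : Type*} [Field F] [CharZero F] {n r N p K : ℕ} (hn : 0 < n) (hp : 0 < p)
    (I : Finset (Fin n)) (hI : I.card ≤ r) (BB : Finset (MvPolynomial (Fin n) F))
    (hBB : ∀ b ∈ BB, aeval (ks F n p K) b ≠ 0)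
    (h : MvPolynomial (Fin n) F) (hN : h.totalDegree ≤ N)
    (ho : ∀ o : Fin n → F, (∀ b ∈ BB, eval o b ≠ 0) → AK.res I o h ≠ 0) :
    ∃ (y z : ℕ) (J : Fin r → Fin n) (w : Fin r → ℕ), y ≤ N * (p - 1) ∧ z ≤ N * (K - 1) ∧
      (∀ j, w j ≤ N) ∧
      eval (fun i => (ksPt n p K (y : F) (z : F) i) + ∑ j, if J j = i then (w j : F) else 0) h
        ≠ 0 := by
  classical
  -- a point over the field
  obtain ⟨x0, hx0⟩ : ∃ x0 : Fin 2 → F, eval x0 (∏ b ∈ BB, aeval (ks F n p K) b) ≠ 0 := by
    by_contra hcon
    apply Finset.prod_ne_zero_iff.2 hBB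
    refine MvPolynomial.funext fun x => ?_
    rw [map_zero]
    by_contra hx
    exact hcon ⟨x, hx⟩
  have h1 := ho (fun i => ksPt n p K (x0 0) (x0 1) i) (by
    intro b hb
    rw [← eval_ks]
    rw [map_prod] at hx0
    exact Finset.prod_ne_zero_iff.1 hx0 b hb)
  obtain ⟨w0, hw0⟩ : ∃ w0 : Fin n → F,
      eval w0 (AK.res I (fun i => ksPt n p K (x0 0) (x0 1) i) h) ≠ 0 := by
    by_contra hcon
    apply h1
    refine MvPolynomial.funext fun x => ?_
    rw [map_zero]
    by_contra hx
    exact hcon ⟨x, hx⟩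
  have h2 : eval w0 (AK.res I (fun i => ksPt n p K (x0 0) (x0 1) i) h) =
      eval (fun i => ksPt n p K (x0 0) (x0 1) i + if i ∈ I then w0 i else 0) h := by
    have h3 : ((aeval w0 : MvPolynomial (Fin n) F →ₐ[F] F).comp
        (AK.res I (fun i => ksPt n p K (x0 0) (x0 1) i))) =
        aeval (fun i => ksPt n p K (x0 0) (x0 1) i + if i ∈ I then w0 i else 0) := by
      apply MvPolynomial.algHom_ext
      intro k
      rw [AlgHom.comp_apply, AK.res, aeval_X, aeval_X, map_add]
      congr 1
      · rw [aeval_C]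
        rfl
      · split_ifs
        · rw [aeval_X]
        · rw [map_zero]
    have h4 := DFunLike.congr_fun h3 h
    rw [AlgHom.comp_apply, aeval_eq_eval, aeval_eq_eval] at h4
    exact h4
  rw [h2] at hw0
  obtain ⟨J, w', hJ⟩ := exists_slots' (R := F) hn I hI w0
  -- the polynomial in the parameters
  set g : Fin n → MvPolynomial (Fin 2 ⊕ Fin r) F := fun i =>
    ksPt n p K (X (Sum.inl 0)) (X (Sum.inl 1)) i + ∑ j, if J j = i then X (Sum.inr j) else 0
    with hg
  have heval : ∀ x : Fin 2 ⊕ Fin r → F, eval x (aeval g h) =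
      eval (fun i => ksPt n p K (x (Sum.inl 0)) (x (Sum.inl 1)) i +
        ∑ j, if J j = i then x (Sum.inr j) else 0) h := by
    intro x
    have h3 : ((aeval x : MvPolynomial (Fin 2 ⊕ Fin r) F →ₐ[F] F).comp (aeval g)) =
        aeval (fun i => ksPt n p K (x (Sum.inl 0)) (x (Sum.inl 1)) i +
          ∑ j, if J j = i then x (Sum.inr j) else 0) := by
      apply MvPolynomial.algHom_ext
      intro k
      rw [AlgHom.comp_apply, aeval_X, aeval_X, hg]
      simp only
      rw [map_add, map_sum]
      congr 1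
      · have h2 := map_ksPt ((aeval x : MvPolynomial (Fin 2 ⊕ Fin r) F →ₐ[F] F).toRingHom) n p K
          (X (Sum.inl 0)) (X (Sum.inl 1)) k
        simp only [AlgHom.toRingHom_eq_coe, RingHom.coe_coe, aeval_X] at h2
        exact h2
      · refine Finset.sum_congr rfl fun j _ => ?_
        split_ifs
        · rw [aeval_X]
        · rw [map_zero]
    have h4 := DFunLike.congr_fun h3 h
    rw [AlgHom.comp_apply, aeval_eq_eval, aeval_eq_eval] at h4
    exact h4
  have hH : aeval g h ≠ 0 := by
    intro h0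
    apply hw0
    have h3 := heval (Sum.elim x0 w')
    rw [h0, map_zero] at h3
    simp only [Sum.elim_inl, Sum.elim_inr, hJ] at h3
    exact h3.symm
  -- degrees
  have hd : ∀ c : Fin 2 ⊕ Fin r, ∀ i, (g i).degreeOf c ≤
      Sum.elim (fun a : Fin 2 => if a = 0 then p - 1 else K - 1) (fun _ => 1) c := by
    intro c i
    rw [hg]
    simp only
    refine (degreeOf_add_le _ _ _).trans (max_le ?_ ?_)
    · refine (degreeOf_ksPt hp _ _ c i).trans ?_
      rcases c with a | j
      · fin_cases a <;> simp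
      · simp
    · refine (degreeOf_sum_le _ _ _).trans (Finset.sup_le fun j _ => ?_)
      split_ifs
      · rw [degreeOf_X]
        split_ifs with h5
        · subst h5
          simp
        · simp
      · simp
  have hd' : ∀ c : Fin 2 ⊕ Fin r, (aeval g h).degreeOf c ≤
      N * Sum.elim (fun a : Fin 2 => if a = 0 then p - 1 else K - 1) (fun _ => 1) c := by
    intro c
    exact (degreeOf_aeval_le69 g c _ (hd c) h).trans (Nat.mul_le_mul_right _ hN)
  by_contra hcon
  push Not at hcon
  apply hH
  refine eq_zero_of_eval_zero_at_prod_finset (aeval g h)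
    (fun c => (Finset.range (N * Sum.elim (fun a : Fin 2 => if a = 0 then p - 1 else K - 1)
      (fun _ => 1) c + 1)).image (fun a : ℕ => (a : F))) ?_ ?_
  · intro c
    rw [Finset.card_image_of_injective _ Nat.cast_injective, Finset.card_range]
    exact Nat.lt_succ_of_le (hd' c)
  · intro x hx
    have hx' : ∀ c, ∃ a : ℕ, a ≤ N * Sum.elim (fun a : Fin 2 => if a = 0 then p - 1 else K - 1)
        (fun _ => 1) c ∧ (a : F) = x c := by
      intro c
      have := hx c
      simp only [Finset.mem_image, Finset.mem_range] at this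
      obtain ⟨a, ha, ha2⟩ := this
      exact ⟨a, Nat.lt_succ_iff.1 ha, ha2⟩
    choose a ha ha2 using hx'
    rw [heval]
    have h5 := hcon (a (Sum.inl 0)) (a (Sum.inl 1)) J (fun j => a (Sum.inr j))
      (by simpa using ha (Sum.inl 0)) (by simpa using ha (Sum.inl 1))
      (fun j => by simpa using ha (Sum.inr j))
    simpa only [ha2] using h5

end SP
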