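import Pool.Agent.Lib.MP_64d474_lc.SP.Main69

/-!
# Explicit integer points for the sparse theorem: one curve through the points of Ben-Or and Tiwari

The coordinate `i` of the curve at `t = j < S` is `(S - 1)! * p_i ^ j`, where `p_0, p_1, ..` are the
primes; a nonzero polynomial with at most `S` monomials does not vanish at all these points.
-/

set_option autoImplicit false

namespace SP

open MvPolynomial

/-- The curve. -/
noncomputable def btPt {R : Type*} [CommRing R] (S : ℕ) (t : R) (i : ℕ) : R :=
  ∑ j ∈ Finset.range S, ((-1 : R) ^ (S - 1 - j) * ((S - 1).choose j : R) *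
    (Nat.nth Nat.Prime i : R) ^ j) * ∏ l ∈ (Finset.range S).erase j, (t - (l : R))

theorem map_btPt {R R' : Type*} [CommRing R] [CommRing R'] (φ : R →+* R') (S : ℕ) (t : R)
    (i : ℕ) : φ (btPt S t i) = btPt S (φ t) i := by
  simp [btPt, map_sum, map_prod]

theorem prod_range_sub {R : Type*} [CommRing R] (j : ℕ) :
    ∏ l ∈ Finset.range j, ((j : R) - (l : R)) = (j.factorial : R) := by
  rw [← Finset.prod_range_add_one_eq_factorial, Nat.cast_prod, ← Finset.prod_range_reflect]
  refine Finset.prod_congr rfl fun l hl => ?_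
  have h1 : l + 1 ≤ j := Finset.mem_range.1 hl
  rw [Nat.sub_sub, Nat.cast_sub (by omega)]
  push_cast
  ring

theorem prod_erase_sub {R : Type*} [CommRing R] {S j : ℕ} (hj : j < S) :
    ∏ l ∈ (Finset.range S).erase j, ((j : R) - (l : R)) =
      (-1 : R) ^ (S - 1 - j) * (j.factorial : R) * ((S - 1 - j).factorial : R) := by
  induction S, (Nat.succ_le_of_lt hj) using Nat.le_induction with
  | base =>
    rw [Finset.range_add_one, Finset.erase_insert Finset.notMem_range_self, prod_range_sub]
    simp
  | succ S hS ih =>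
    have h1 : j < S := hS
    rw [Finset.range_add_one, Finset.erase_insert_of_ne (by omega), Finset.prod_insert (by
      intro h
      exact Finset.notMem_range_self (Finset.mem_of_mem_erase h)), ih h1]
    obtain ⟨a, rfl⟩ : ∃ a, S = j + 1 + a := ⟨S - (j + 1), by omega⟩
    have e1 : j + 1 + a - 1 - j = a := by omega
    have e2 : j + 1 + a + 1 - 1 - j = a + 1 := by omega
    rw [e1, e2, Nat.factorial_succ, pow_succ]
    push_cast
    ring

/-- The nodes of the curve. -/
theorem btPt_node {R : Type*} [CommRing R] {S j : ℕ} (hj : j < S) (i : ℕ) :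
    btPt S (j : R) i = ((S - 1).factorial : R) * (Nat.nth Nat.Prime i : R) ^ j := by
  rw [btPt, Finset.sum_eq_single_of_mem j (Finset.mem_range.2 hj)]
  · rw [prod_erase_sub hj]
    have h1 := Nat.choose_mul_factorial_mul_factorial (Nat.le_sub_one_of_lt hj)
    have h2 : ((-1 : R) ^ (S - 1 - j)) * ((-1 : R) ^ (S - 1 - j)) = 1 := by
      rw [← mul_pow]
      simp
    rw [← h1]
    push_cast
    linear_combination (((S - 1).choose j : R) * (Nat.nth Nat.Prime i : R) ^ j *
      (j.factorial : R) * ((S - 1 - j).factorial : R)) * h2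
  · intro j' _ hne
    rw [Finset.prod_eq_zero (i := j) (Finset.mem_erase.2 ⟨hne.symm, Finset.mem_range.2 hj⟩)
      (sub_self _), mul_zero]

/-- Distinct monomials have distinct values at the primes. -/
theorem mono_inj {n : ℕ} {e e' : Fin n →₀ ℕ}
    (h : ∏ i : Fin n, Nat.nth Nat.Prime i ^ e i = ∏ i : Fin n, Nat.nth Nat.Prime i ^ e' i) :
    e = e' := by
  have key : ∀ (e : Fin n →₀ ℕ) (i : Fin n),
      (∏ k : Fin n, Nat.nth Nat.Prime k ^ e k).factorization (Nat.nth Nat.Prime i) = e i := by
    intro e i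
    rw [Nat.factorization_prod (fun k _ => pow_ne_zero _ (Nat.prime_nth_prime _).ne_zero),
      Finsupp.finsetSum_apply, Finset.sum_eq_single i]
    · rw [(Nat.prime_nth_prime _).factorization_pow, Finsupp.single_eq_same]
    · intro k _ hk
      rw [(Nat.prime_nth_prime _).factorization_pow, Finsupp.single_eq_of_ne]
      intro h1
      apply hk
      apply Fin.ext
      exact ((Nat.nth_injective Nat.infinite_setOfPred_prime) h1.symm)
    · intro h1
      exact absurd (Finset.mem_univ _) h1
  ext i
  rw [← key e i, ← key e' i, h]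

/-- Ben-Or and Tiwari. -/
theorem bt_ne_zero {F : Type*} [Field F] [CharZero F] {n S : ℕ} (c : F) (hc : c ≠ 0)
    (b : MvPolynomial (Fin n) F) (hb : b ≠ 0) (hs : b.support.card ≤ S) :
    ∃ j < S, eval (fun i : Fin n => c * (Nat.nth Nat.Prime i : F) ^ j) b ≠ 0 := by
  classical
  by_contra hcon
  push Not at hcon
  let e : Fin b.support.card ≃ b.support := b.support.equivFin.symm
  have hev : ∀ j, eval (fun i : Fin n => c * (Nat.nth Nat.Prime i : F) ^ j) b =
      ∑ a : Fin b.support.card, (b.coeff (e a : Fin n →₀ ℕ) * c ^ (∑ i, (e a : Fin n →₀ ℕ) i)) *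
        (((∏ i : Fin n, Nat.nth Nat.Prime i ^ (e a : Fin n →₀ ℕ) i : ℕ) : F)) ^ j := by
    intro j
    rw [eval_eq', ← Finset.sum_coe_sort, ← e.sum_comp]
    refine Finset.sum_congr rfl fun a _ => ?_
    rw [mul_assoc]
    congr 1
    push_cast
    rw [Finset.prod_congr rfl fun i _ => mul_pow c _ _, Finset.prod_mul_distrib,
      Finset.prod_pow_eq_pow_sum, ← Finset.prod_pow]
    congr 1
    refine Finset.prod_congr rfl fun i _ => ?_
    rw [← pow_mul, ← pow_mul, mul_comm]
  have hv : (fun a : Fin b.support.card =>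
      b.coeff (e a : Fin n →₀ ℕ) * c ^ (∑ i, (e a : Fin n →₀ ℕ) i)) = 0 := by
    refine Matrix.eq_zero_of_forall_pow_sum_mul_pow_eq_zero (f := fun a : Fin b.support.card =>
      ((∏ i : Fin n, Nat.nth Nat.Prime i ^ (e a : Fin n →₀ ℕ) i : ℕ) : F)) ?_ fun i => ?_
    · intro a a' h
      have h1 := mono_inj (Nat.cast_injective h)
      exact e.injective (Subtype.ext h1)
    · rw [← hev]
      exact hcon i (lt_of_lt_of_le i.2 hs)
  have hpos : 0 < b.support.card := Finset.card_pos.2 (MvPolynomial.support_nonempty.2 hb)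
  have h1 := congrFun hv ⟨0, hpos⟩
  simp only [Pi.zero_apply] at h1
  rcases mul_eq_zero.1 h1 with h2 | h2
  · exact (MvPolynomial.mem_support_iff.1 (e ⟨0, hpos⟩).2) h2
  · exact pow_ne_zero _ hc h2

theorem eval_btX {F : Type*} [Field F] {n S : ℕ} (t : F) (b : MvPolynomial (Fin n) F) :
    Polynomial.eval t (aeval (fun i : Fin n => btPt S (Polynomial.X : Polynomial F) (i : ℕ)) b) =
      eval (fun i : Fin n => btPt S t (i : ℕ)) b := by
  have h : ((Polynomial.aeval t : Polynomial F →ₐ[F] F).comp
      (aeval (fun i : Fin n => btPt S (Polynomial.X : Polynomial F) (i : ℕ)))) =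
      aeval (fun i : Fin n => btPt S t (i : ℕ)) := by
    apply MvPolynomial.algHom_ext
    intro k
    rw [AlgHom.comp_apply, aeval_X, aeval_X]
    have h2 := map_btPt ((Polynomial.aeval t : Polynomial F →ₐ[F] F).toRingHom) S
      (Polynomial.X : Polynomial F) (k : ℕ)
    simp only [AlgHom.toRingHom_eq_coe, RingHom.coe_coe, Polynomial.aeval_X] at h2
    exact h2
  have h2 := DFunLike.congr_fun h b
  rw [AlgHom.comp_apply, aeval_eq_eval] at h2
  rw [← h2, Polynomial.coe_aeval_eq_eval]

/-- One parameter for finitely many sparse polynomials. -/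
theorem bt_common {F : Type*} [Field F] [CharZero F] {n S : ℕ}
    (BB : Finset (MvPolynomial (Fin n) F)) (hBB : ∀ b ∈ BB, b ≠ 0 ∧ b.support.card ≤ S) :
    ∃ t : F, ∀ b ∈ BB, eval (fun i : Fin n => btPt S t (i : ℕ)) b ≠ 0 := by
  classical
  obtain ⟨t, ht⟩ : ∃ t : F, Polynomial.eval t (∏ b ∈ BB,
      aeval (fun i : Fin n => btPt S (Polynomial.X : Polynomial F) (i : ℕ)) b) ≠ 0 := by
    by_contra hcon
    push Not at hcon
    have h0 : (∏ b ∈ BB,
        aeval (fun i : Fin n => btPt S (Polynomial.X : Polynomial F) (i : ℕ)) b) = 0 :=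
      Polynomial.funext fun x => by rw [hcon x, Polynomial.eval_zero]
    obtain ⟨b, hb, hb0⟩ := Finset.prod_eq_zero_iff.1 h0
    obtain ⟨j, hj, hj2⟩ := bt_ne_zero (((S - 1).factorial : ℕ) : F)
      (Nat.cast_ne_zero.2 (Nat.factorial_ne_zero _)) b (hBB b hb).1 (hBB b hb).2
    apply hj2
    have h1 := eval_btX (S := S) (j : F) b
    rw [hb0, Polynomial.eval_zero] at h1
    simp only [btPt_node hj] at h1
    exact h1.symm
  refine ⟨t, fun b hb => ?_⟩
  rw [← eval_btX]
  rw [Polynomial.eval_prod] at ht
  exact Finset.prod_ne_zero_iff.1 ht b hb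

theorem degreeOf_btPt {F σ : Type*} [Field F] [DecidableEq σ] {S : ℕ} (a c : σ)
    (i : ℕ) : (btPt S (X a : MvPolynomial σ F) i).degreeOf c ≤ if c = a then S - 1 else 0 := by
  rw [btPt]
  refine (degreeOf_sum_le _ _ _).trans (Finset.sup_le fun j hj => ?_)
  refine (degreeOf_mul_le _ _ _).trans ?_
  have h0 : ((-1 : MvPolynomial σ F) ^ (S - 1 - j) * (((S - 1).choose j : ℕ) : MvPolynomial σ F) *
      ((Nat.nth Nat.Prime i : ℕ) : MvPolynomial σ F) ^ j) =
      C ((-1 : F) ^ (S - 1 - j) * (((S - 1).choose j : ℕ) : F) *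
        ((Nat.nth Nat.Prime i : ℕ) : F) ^ j) := by
    simp
  rw [h0, degreeOf_C, zero_add]
  refine (degreeOf_prod_le _ _ _).trans ?_
  have h2 : ∀ l ∈ (Finset.range S).erase j,
      ((X a : MvPolynomial σ F) - (l : MvPolynomial σ F)).degreeOf c ≤
        if c = a then 1 else 0 := by
    intro l _
    rw [← map_natCast (C : F →+* MvPolynomial σ F)]
    refine (degreeOf_sub_le _ _ _).trans ?_
    rw [degreeOf_X, degreeOf_C]
    split_ifs <;> simp
  refine (Finset.sum_le_sum h2).trans ?_
  rw [Finset.sum_const, Finset.card_erase_of_mem hj, Finset.card_range]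
  split_ifs <;> simp

/-- Explicit integer points. -/
theorem hit_bt {F : Type*} [Field F] [CharZero F] {n r N S : ℕ} (hn : 0 < n)
    (I : Finset (Fin n)) (hI : I.card ≤ r) (BB : Finset (MvPolynomial (Fin n) F))
    (hBB : ∀ b ∈ BB, b ≠ 0 ∧ b.support.card ≤ S)
    (h : MvPolynomial (Fin n) F) (hN : h.totalDegree ≤ N)
    (ho : ∀ o : Fin n → F, (∀ b ∈ BB, eval o b ≠ 0) → AK.res I o h ≠ 0) :
    ∃ (t : ℕ) (J : Fin r → Fin n) (w : Fin r → ℕ), t ≤ N * (S - 1) ∧ (∀ j, w j ≤ N) ∧
      eval (fun i : Fin n => btPt S (t : F) (i : ℕ) + ∑ j, if J j = i then (w j : F) else 0) h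
        ≠ 0 := by
  classical
  -- a point over the field
  obtain ⟨t0, ht0⟩ := bt_common BB hBB
  have h1 := ho (fun i => btPt S t0 (i : ℕ)) ht0
  obtain ⟨w0, hw0⟩ : ∃ w0 : Fin n → F,
      eval w0 (AK.res I (fun i : Fin n => btPt S t0 (i : ℕ)) h) ≠ 0 := by
    by_contra hcon
    apply h1
    refine MvPolynomial.funext fun x => ?_
    rw [map_zero]
    by_contra hx
    exact hcon ⟨x, hx⟩
  have h2 : eval w0 (AK.res I (fun i : Fin n => btPt S t0 (i : ℕ)) h) =
      eval (fun i : Fin n => btPt S t0 (i : ℕ) + if i ∈ I then w0 i else 0) h := by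
    have h3 : ((aeval w0 : MvPolynomial (Fin n) F →ₐ[F] F).comp
        (AK.res I (fun i : Fin n => btPt S t0 (i : ℕ)))) =
        aeval (fun i : Fin n => btPt S t0 (i : ℕ) + if i ∈ I then w0 i else 0) := by
      apply MvPolynomial.algHom_ext
      intro k
      rw [AlgHom.comp_apply, AK.res, aeval_X, aeval_X, map_add]
      congr 1
      · rw [aeval_C]
        rfl
      · split_ifs
        · rw [aeval_X]
        · rw [map_zero]
    have h4 := DFunLike.congr_fun h3 h
    rw [AlgHom.comp_apply, aeval_eq_eval, aeval_eq_eval] at h4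
    exact h4
  rw [h2] at hw0
  obtain ⟨J, w', hJ⟩ := exists_slots' (R := F) hn I hI w0
  -- the polynomial in the parameters
  set g : Fin n → MvPolynomial (Option (Fin r)) F := fun i =>
    btPt S (X none) (i : ℕ) + ∑ j, if J j = i then X (some j) else 0
    with hg
  have heval : ∀ x : Option (Fin r) → F, eval x (aeval g h) =
      eval (fun i : Fin n => btPt S (x none) (i : ℕ) + ∑ j, if J j = i then x (some j) else 0) h := by
    intro x
    have h3 : ((aeval x : MvPolynomial (Option (Fin r)) F →ₐ[F] F).comp (aeval g)) =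
        aeval (fun i : Fin n => btPt S (x none) (i : ℕ) +
          ∑ j, if J j = i then x (some j) else 0) := by
      apply MvPolynomial.algHom_ext
      intro k
      rw [AlgHom.comp_apply, aeval_X, aeval_X, hg]
      simp only
      rw [map_add, map_sum]
      congr 1
      · have h2 := map_btPt ((aeval x : MvPolynomial (Option (Fin r)) F →ₐ[F] F).toRingHom) S
          (X none) (k : ℕ)
        simp only [AlgHom.toRingHom_eq_coe, RingHom.coe_coe, aeval_X] at h2
        exact h2
      · refine Finset.sum_congr rfl fun j _ => ?_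
        split_ifs
        · rw [aeval_X]
        · rw [map_zero]
    have h4 := DFunLike.congr_fun h3 h
    rw [AlgHom.comp_apply, aeval_eq_eval, aeval_eq_eval] at h4
    exact h4
  have hH : aeval g h ≠ 0 := by
    intro h0
    apply hw0
    have h3 := heval (fun o => o.elim t0 w')
    rw [h0, map_zero] at h3
    simp only [Option.elim_none, Option.elim_some, hJ] at h3
    exact h3.symm
  -- degrees
  have hd : ∀ c : Option (Fin r), ∀ i, (g i).degreeOf c ≤ c.elim (S - 1) (fun _ => 1) := by
    intro c i
    rw [hg]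
    simp only
    refine (degreeOf_add_le _ _ _).trans (max_le ?_ ?_)
    · refine (degreeOf_btPt none c i).trans ?_
      rcases c with _ | j <;> simp
    · refine (degreeOf_sum_le _ _ _).trans (Finset.sup_le fun j _ => ?_)
      split_ifs
      · rw [degreeOf_X]
        split_ifs with h5
        · subst h5
          simp
        · simp
      · simp
  have hd' : ∀ c : Option (Fin r), (aeval g h).degreeOf c ≤ N * c.elim (S - 1) (fun _ => 1) := by
    intro c
    exact (degreeOf_aeval_le69 g c _ (hd c) h).trans (Nat.mul_le_mul_right _ hN)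
  by_contra hcon
  push Not at hcon
  apply hH
  refine eq_zero_of_eval_zero_at_prod_finset (aeval g h)
    (fun c => (Finset.range (N * c.elim (S - 1) (fun _ => 1) + 1)).image
      (fun a : ℕ => (a : F))) ?_ ?_
  · intro c
    rw [Finset.card_image_of_injective _ Nat.cast_injective, Finset.card_range]
    exact Nat.lt_succ_of_le (hd' c)
  · intro x hx
    have hx' : ∀ c : Option (Fin r), ∃ a : ℕ, a ≤ N * c.elim (S - 1) (fun _ => 1) ∧
        (a : F) = x c := by
      intro c
      have := hx c
      simp only [Finset.mem_image, Finset.mem_range] at this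
      obtain ⟨a, ha, ha2⟩ := this
      exact ⟨a, Nat.lt_succ_iff.1 ha, ha2⟩
    choose a ha ha2 using hx'
    rw [heval]
    have h5 := hcon (a none) J (fun j => a (some j)) (by simpa using ha none)
      (fun j => by simpa using ha (some j))
    simpa only [ha2] using h5

end SP
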