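import Pool.Agent.Lib.MP_64d474_lc.SP.KSDef69

/-!
# The generator of Klivans and Spielman for sparse polynomials
-/

set_option autoImplicit false

namespace SP

open Polynomial

/-- Specialise `y = X`, `z = κ`. -/
noncomputable def spec (F : Type*) [Field F] (κ : ℕ) : MvPolynomial (Fin 2) F →ₐ[F] F[X] :=
  MvPolynomial.aeval ![X, C (κ : F)]

/-- the constant at `z = κ`. -/
noncomputable def cst (F : Type*) [Field F] (K κ : ℕ) : F :=
  ∏ κ' ∈ (Finset.range K).erase κ, ((κ : F) - (κ' : F))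

theorem cst_ne_zero (F : Type*) [Field F] [CharZero F] (K κ : ℕ) : cst F K κ ≠ 0 := by
  unfold cst
  rw [Finset.prod_ne_zero_iff]
  intro κ' hκ'
  rw [sub_ne_zero]
  intro h
  exact (Finset.mem_erase.1 hκ').1 (Nat.cast_injective h).symm

theorem spec_ks (F : Type*) [Field F] (n p K : ℕ) (i : Fin n) {κ : ℕ}
    (hκ : κ ∈ Finset.range K) :
    spec F κ (ks F n p K i) = C (cst F K κ) * X ^ (κ ^ (i : ℕ) % p) := by
  unfold ks
  rw [map_sum, Finset.sum_eq_single κ]
  · rw [map_mul, map_prod, map_pow]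
    simp only [spec, map_sub, MvPolynomial.aeval_X, MvPolynomial.aeval_C, cst,
      Matrix.cons_val_one, Matrix.cons_val_zero, Matrix.cons_val_fin_one, map_prod, algebraMap_eq]
  · intro κ1 hκ1 hne
    rw [map_mul, map_prod]
    rw [Finset.prod_eq_zero (i := κ) (Finset.mem_erase.2 ⟨hne.symm, hκ⟩), zero_mul]
    simp [spec]
  · intro h
    exact absurd hκ h

/-- The exponent of the image of the monomial `m`. -/
def ex (n p κ : ℕ) (m : Fin n →₀ ℕ) : ℕ := ∑ i : Fin n, m i * (κ ^ (i : ℕ) % p)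

theorem ex_cast {n p κ : ℕ} (m : Fin n →₀ ℕ) :
    ((ex n p κ m : ℕ) : ZMod p) = ∑ i : Fin n, (m i : ZMod p) * (κ : ZMod p) ^ (i : ℕ) := by
  unfold ex
  push_cast
  refine Finset.sum_congr rfl fun i _ => ?_
  rw [ZMod.natCast_mod]
  push_cast
  rfl

/-- Two different exponent vectors collide for at most `n` values `κ < K ≤ p`. -/
theorem card_collide {n p K : ℕ} (hp : p.Prime) (hK : K ≤ p) {m m' : Fin n →₀ ℕ} (hne : m ≠ m')
    (hm : ∀ i, m i < p) (hm' : ∀ i, m' i < p) :
    ((Finset.range K).filter fun κ => ex n p κ m = ex n p κ m').card ≤ n := by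
  have : Fact p.Prime := ⟨hp⟩
  let P : (ZMod p)[X] := ∑ i : Fin n, C ((m i : ZMod p) - (m' i : ZMod p)) * X ^ (i : ℕ)
  have hcoef : ∀ i : Fin n, P.coeff i = (m i : ZMod p) - (m' i : ZMod p) := by
    intro i
    simp only [P, finsetSum_coeff, coeff_C_mul, coeff_X_pow]
    rw [Finset.sum_eq_single i]
    · simp
    · intro j _ hj
      have : (i : ℕ) ≠ (j : ℕ) := fun h => hj (Fin.ext h.symm)
      simp [this]
    · intro h
      exact absurd (Finset.mem_univ i) h
  have hP0 : P ≠ 0 := by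
    obtain ⟨i, hi⟩ := Finsupp.ne_iff.1 hne
    intro h0
    have h1 := hcoef i
    rw [h0, coeff_zero] at h1
    have h2 : (m i : ZMod p) = (m' i : ZMod p) := (sub_eq_zero.1 h1.symm)
    rw [ZMod.natCast_eq_natCast_iff'] at h2
    rw [Nat.mod_eq_of_lt (hm i), Nat.mod_eq_of_lt (hm' i)] at h2
    exact hi h2
  have hdeg : P.natDegree ≤ n := by
    refine natDegree_sum_le_of_forall_le _ _ fun i _ => ?_
    refine (natDegree_C_mul_X_pow_le _ _).trans i.2.le
  have hroots : (P.roots.toFinset).card ≤ n :=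
    (Multiset.toFinset_card_le _).trans ((card_roots' P).trans hdeg)
  refine le_trans ?_ hroots
  refine Finset.card_le_card_of_injOn (fun κ => (κ : ZMod p)) ?_ ?_
  · intro κ hκ
    have hκ' := (Finset.mem_filter.1 hκ).2
    simp only [Finset.mem_coe, Multiset.mem_toFinset, mem_roots hP0, IsRoot.def]
    have h3 : ((ex n p κ m : ℕ) : ZMod p) = ((ex n p κ m' : ℕ) : ZMod p) := by rw [hκ']
    rw [ex_cast, ex_cast] at h3
    simp only [P, eval_finsetSum, eval_mul, eval_C, eval_pow, eval_X]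
    rw [← sub_eq_zero, ← Finset.sum_sub_distrib] at h3
    rw [← h3]
    refine Finset.sum_congr rfl fun i _ => ?_
    ring
  · intro κ hκ κ1 hκ1 h
    have h4 : κ < p := (Finset.mem_range.1 (Finset.mem_filter.1 hκ).1).trans_le hK
    have h5 : κ1 < p := (Finset.mem_range.1 (Finset.mem_filter.1 hκ1).1).trans_le hK
    have h6 : (κ : ZMod p) = (κ1 : ZMod p) := h
    rw [ZMod.natCast_eq_natCast_iff', Nat.mod_eq_of_lt h4, Nat.mod_eq_of_lt h5] at h6
    exact h6

/-- A good value `κ`. -/
theorem exists_good {n p K s : ℕ} (hp : p.Prime) (hK : K ≤ p) (hs : n * s ^ 2 < K)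
    (S : Finset (Fin n →₀ ℕ)) (hS : S.card ≤ s) (hlt : ∀ m ∈ S, ∀ i, m i < p) :
    ∃ κ ∈ Finset.range K, Set.InjOn (ex n p κ) (S : Set (Fin n →₀ ℕ)) := by
  classical
  by_contra hcon
  push Not at hcon
  have hsub : Finset.range K ⊆ ((S ×ˢ S).filter fun q => q.1 ≠ q.2).biUnion fun q =>
      (Finset.range K).filter fun κ => ex n p κ q.1 = ex n p κ q.2 := by
    intro κ hκ
    have h1 := hcon κ hκ
    simp only [Set.InjOn, not_forall] at h1
    obtain ⟨m, hm, m', hm', heq, hne⟩ := h1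
    simp only [Finset.mem_biUnion, Finset.mem_filter, Finset.mem_product]
    exact ⟨(m, m'), ⟨⟨hm, hm'⟩, hne⟩, hκ, heq⟩
  have h2 := Finset.card_le_card hsub
  rw [Finset.card_range] at h2
  have h3 : (((S ×ˢ S).filter fun q => q.1 ≠ q.2).biUnion fun q =>
      (Finset.range K).filter fun κ => ex n p κ q.1 = ex n p κ q.2).card ≤
      ((S ×ˢ S).filter fun q => q.1 ≠ q.2).card * n := by
    refine Finset.card_biUnion_le_card_mul _ _ _ fun q hq => ?_
    simp only [Finset.mem_filter, Finset.mem_product] at hq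
    exact card_collide hp hK hq.2 (hlt _ hq.1.1) (hlt _ hq.1.2)
  have h4 : ((S ×ˢ S).filter fun q => q.1 ≠ q.2).card ≤ s ^ 2 := by
    refine (Finset.card_filter_le _ _).trans ?_
    rw [Finset.card_product, sq]
    exact Nat.mul_le_mul hS hS
  have h5 : ((S ×ˢ S).filter fun q => q.1 ≠ q.2).card * n ≤ s ^ 2 * n :=
    Nat.mul_le_mul_right n h4
  have h6 : K ≤ s ^ 2 * n := h2.trans (h3.trans h5)
  rw [mul_comm] at h6
  omega

/-- The generator of Klivans and Spielman: an `s`-sparse nonzero polynomial of individual degrees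
less than `p` stays nonzero. -/
theorem ks_ne_zero {F : Type*} [Field F] [CharZero F] {n p K s : ℕ} (hp : p.Prime)
    (hK : n * s ^ 2 < K) (hKp : K ≤ p) (b : MvPolynomial (Fin n) F) (hb : b ≠ 0)
    (hs : b.support.card ≤ s) (hd : ∀ i, b.degreeOf i < p) :
    MvPolynomial.aeval (ks F n p K) b ≠ 0 := by
  classical
  have hlt : ∀ m ∈ b.support, ∀ i, m i < p := fun m hm i =>
    (MvPolynomial.le_degreeOf_of_mem_support i hm).trans_lt (hd i)
  obtain ⟨κ, hκ, hinj⟩ := exists_good hp hKp hK b.support hs hlt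
  intro h0
  have h1 : spec F κ (MvPolynomial.aeval (ks F n p K) b) = 0 := by
    rw [h0, map_zero]
  have h2 : spec F κ (MvPolynomial.aeval (ks F n p K) b) =
      ∑ m ∈ b.support, C (b.coeff m * cst F K κ ^ (∑ i, m i)) * X ^ (ex n p κ m) := by
    rw [← AlgHom.comp_apply, MvPolynomial.comp_aeval, MvPolynomial.aeval_def,
      MvPolynomial.eval₂_eq']
    refine Finset.sum_congr rfl fun m _ => ?_
    simp only [spec_ks F n p K _ hκ, mul_pow, Finset.prod_mul_distrib, ← C_pow, ← pow_mul,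
      algebraMap_eq]
    rw [Finset.prod_pow_eq_pow_sum, ← map_prod, Finset.prod_pow_eq_pow_sum, ex]
    rw [← mul_assoc, ← C_mul]
    congr 2
    refine Finset.sum_congr rfl fun i _ => ?_
    ring
  rw [h2] at h1
  obtain ⟨m0, hm0⟩ := MvPolynomial.support_nonempty.2 hb
  have h3 := congrArg (fun P : F[X] => P.coeff (ex n p κ m0)) h1
  simp only [finsetSum_coeff, coeff_C_mul, coeff_X_pow, coeff_zero] at h3
  rw [Finset.sum_eq_single m0] at h3
  · rw [if_pos rfl, mul_one] at h3
    rcases mul_eq_zero.1 h3 with h4 | h4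
    · exact (MvPolynomial.mem_support_iff.1 hm0) h4
    · exact cst_ne_zero F K κ (eq_zero_of_pow_eq_zero h4)
  · intro m hm hne
    rw [if_neg, mul_zero]
    intro h5
    exact hne (hinj hm hm0 h5.symm)
  · intro h
    exact absurd hm0 h

/-- the degree of the generator. -/
theorem ks_totalDegree (F : Type*) [Field F] {p : ℕ} (hp : 0 < p) (n K : ℕ) (i : Fin n) :
    (ks F n p K i).totalDegree ≤ K + p := by
  unfold ks
  refine (MvPolynomial.totalDegree_finsetSum _ _).trans (Finset.sup_le fun κ hκ => ?_)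
  refine (MvPolynomial.totalDegree_mul _ _).trans ?_
  have h1 : (∏ κ' ∈ (Finset.range K).erase κ,
      (MvPolynomial.X (R := F) (1 : Fin 2) - MvPolynomial.C (κ' : F))).totalDegree ≤ K := by
    refine (MvPolynomial.totalDegree_finsetProd _ _).trans ?_
    refine (Finset.sum_le_sum (g := fun _ => 1) fun κ' _ => ?_).trans ?_
    · refine (MvPolynomial.totalDegree_sub _ _).trans ?_
      rw [MvPolynomial.totalDegree_X, MvPolynomial.totalDegree_C]
      simp
    · rw [Finset.sum_const, smul_eq_mul, mul_one]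
      exact (Finset.card_erase_le).trans_eq (Finset.card_range K)
  have h2 : (MvPolynomial.X (R := F) (0 : Fin 2) ^ (κ ^ (i : ℕ) % p)).totalDegree ≤ p := by
    rw [MvPolynomial.totalDegree_X_pow]
    exact (Nat.mod_lt _ hp).le
  exact add_le_add h1 h2

end SP
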