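import Pool.Agent.Lib.MP_64d474_lc.SP.Z35
import Pool.Agent.Lib.MP_64d474_lc.AK.V29
import Pool.Agent.Lib.MP_64d474_lc.AK.X96
import Pool.Agent.Lib.MP_64d474_lc.AK.I90
import Pool.Agent.Lib.MP_64d474_lc.SP.Hit69
import Pool.Agent.Lib.MP_64d474_lc.SP.KS4

/-!
# The theorem on products of sparse polynomials, from the step
-/

set_option autoImplicit false

namespace SP

open Polynomial AK

universe u

/-- Row Z0 from row ST0. -/
theorem nonzero35 {F : Type u} [Field F] {n : ℕ} (hstep : StepHyp0 F n)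
    {m r s d : ℕ} (hd : 1 ≤ d)
    (T : Fin m → MvPolynomial (Fin n) F) (hprod : ∀ j, IsProdS s d (T j))
    (hr : ∀ t : Finset (Fin m), AlgebraicIndependent F (fun j : t => T j) → t.card ≤ r)
    (h : MvPolynomial (Fin n) F) (hh : h ∈ Algebra.adjoin F (Set.range T)) (h0 : h ≠ 0) :
    ∃ I : Finset (Fin n), I.card ≤ r ∧ ∃ BB : Finset (MvPolynomial (Fin n) F),
      (∀ b ∈ BB, b ≠ 0 ∧ Cls (SS r s d) (DS r d) b) ∧
      ∀ o : Fin n → F, (∀ b ∈ BB, MvPolynomial.eval o b ≠ 0) → res I o h ≠ 0 :=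
  nonzero_of_step hstep (fun t ht => exists_val t ht) (fun T hT => exists_split T hT)
    (fun v hv _ t h => indep_of_val v hv t h) hd T hprod hr h hh h0

/-- The final theorem from row ST0. -/
theorem hit35 {F : Type u} [Field F] [CharZero F] {n : ℕ} (hstep : StepHyp0 F n)
    {m r s d N p K : ℕ} (hn : 0 < n) (hd : 1 ≤ d) (hp : p.Prime)
    (hK : n * SS r s d ^ 2 < K) (hKp : K ≤ p) (hdp : DS r d < p)
    (T : Fin m → MvPolynomial (Fin n) F) (hprod : ∀ j, IsProdS s d (T j))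
    (hr : ∀ t : Finset (Fin m), AlgebraicIndependent F (fun j : t => T j) → t.card ≤ r)
    (h : MvPolynomial (Fin n) F) (hh : h ∈ Algebra.adjoin F (Set.range T)) (h0 : h ≠ 0)
    (hN : h.totalDegree ≤ N) :
    ∃ (y z : ℕ) (J : Fin r → Fin n) (w : Fin r → ℕ), y ≤ N * (p - 1) ∧ z ≤ N * (K - 1) ∧
      (∀ j, w j ≤ N) ∧
      MvPolynomial.eval (fun i => (ksPt n p K (y : F) (z : F) i) +
        ∑ j, if J j = i then (w j : F) else 0) h ≠ 0 := by
  obtain ⟨I, hI, BB, hBB, hres⟩ := nonzero35 hstep hd T hprod hr h hh h0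
  refine hit_sparse hn hp.pos I hI BB (fun b hb => ?_) h hN hres
  exact ks_ne_zero hp hK hKp b (hBB b hb).1 (hBB b hb).2.1
    (fun i => lt_of_le_of_lt ((hBB b hb).2.2 i) hdp)

end SP
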