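import Pool.Agent.Lib.MP_64d474_lc.AK.Defs

/-!
# Products of sparse polynomials of bounded individual degree: definitions
-/

set_option autoImplicit false

namespace SP

open Polynomial AK

/-- `b` has at most `s` monomials and degree at most `d` in each variable. -/
def Cls {F : Type*} [Field F] {n : ℕ} (s d : ℕ) (b : MvPolynomial (Fin n) F) : Prop :=
  b.support.card ≤ s ∧ ∀ i, b.degreeOf i ≤ d

/-- The number of monomials after one step. -/
def fs (s d : ℕ) : ℕ := ((d + 1) ^ 2 * s + 1) ^ (2 * d ^ 2 * (d + 1))

/-- The individual degree after one step. -/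
def fd (d : ℕ) : ℕ := 2 * d ^ 3 * (d + 1)

/-- The number of monomials after `r` steps. -/
def SS : ℕ → ℕ → ℕ → ℕ
  | 0, s, _ => s
  | r + 1, s, d => SS r (fs s d) (fd d)

/-- The individual degree after `r` steps. -/
def DS : ℕ → ℕ → ℕ
  | 0, d => d
  | r + 1, d => DS r (fd d)

/-- `T` is a product of polynomials with at most `s` monomials and individual degree at most
`d`. -/
def IsProdS {F : Type*} [Field F] {n : ℕ} (s d : ℕ) (T : MvPolynomial (Fin n) F) : Prop :=
  ∃ m : Multiset (MvPolynomial (Fin n) F), (∀ p ∈ m, Cls s d p) ∧ T = m.prod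

/-- The polynomial `chi` with the small parameter `X` of the inner polynomial ring. -/
noncomputable def chiE {A : Type*} [CommRing A] (B : A[X]) {e : ℕ} (P : Fin e → A[X])
    (c : Fin e → ℕ) (N : ℕ) : A[X][X] :=
  chi (B.map C) (∏ l, ((P l).map C + C X) ^ c l) e N

end SP
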