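import Pool.Agent.Lib.MP_64d474_lc.AK.M63
import Pool.Agent.Lib.MP_64d474_lc.SP.Defs48

set_option autoImplicit false

/-!
# Row M0: the main theorem for sparse factors from the rows IT0, X, V, I
-/

namespace SP

open Polynomial AK

universe u

/-- The statement of row IT0. -/
def IterHyp0 (F : Type u) [Field F] (n : ℕ) : Prop :=
  ∀ (r s d : ℕ) (_ : 1 ≤ d)
    (I : Fin r → Fin n)
    (BB : Finset (MvPolynomial (Fin n) F)) (_ : ∀ b ∈ BB, b ≠ 0 ∧ Cls s d b),
    ∃ BB' : Finset (MvPolynomial (Fin n) F), (∀ b ∈ BB', b ≠ 0 ∧ Cls (SS r s d) (DS r d) b) ∧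
      ∀ (L : Type u) [Field L] [IsAlgClosed L] [Algebra F L] (Γ : Type u)
        [LinearOrderedCommGroupWithZero Γ] (v : Valuation L Γ),
        (∀ c : F, c ≠ 0 → v (algebraMap F L c) = 1) → (∃ a : L, a ≠ 0 ∧ v a ≠ 1) →
        ∀ x x' : Fin n → L, ∀ z : Fin r → L,
        (∀ j : ℕ, Gen F fun i => x i + ∑ l, if l.val < j ∧ I l = i then z l else 0) →
        (∀ b ∈ BB', v (MvPolynomial.aeval x b) = v (MvPolynomial.aeval x' b)) →
        ∃ z' : Fin r → L, ∀ b ∈ BB,
          v (MvPolynomial.aeval (fun i => x i + ∑ l, if I l = i then z l else 0) b) =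
          v (MvPolynomial.aeval (fun i => x' i + ∑ l, if I l = i then z' l else 0) b)

/-- A sum with at most one nonzero term. -/
theorem sum_ite63 {M : Type*} [AddCommMonoid M] {n r : ℕ} (e : Fin r → Fin n)
    (he : Function.Injective e) (P : Fin r → Prop) [DecidablePred P] (f : Fin n → M) (i : Fin n)
    (Q : Prop) [Decidable Q] (hQ : Q ↔ ∃ l, P l ∧ e l = i) :
    (∑ l, if P l ∧ e l = i then f (e l) else 0) = if Q then f i else 0 := by
  by_cases h : Q
  · obtain ⟨l, hl, rfl⟩ := hQ.1 h
    rw [if_pos h, Finset.sum_eq_single l]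
    · rw [if_pos ⟨hl, rfl⟩]
    · intro b _ hb
      rw [if_neg fun h => hb (he h.2)]
    · intro h
      exact absurd (Finset.mem_univ _) h
  · rw [if_neg h]
    refine Finset.sum_eq_zero fun l _ => ?_
    rw [if_neg fun h2 => h (hQ.2 ⟨l, h2⟩)]

theorem main0_of63 {F : Type u} [Field F] {n : ℕ} (hIT : IterHyp0 F n) (hX : SplitHyp F n)
    (hV : ValHyp.{u}) (hI : IndHyp.{u}) {r s d : ℕ} (hd : 1 ≤ d)
    (T : Fin r → MvPolynomial (Fin n) F) (hT : AlgebraicIndependent F T)
    (hprod : ∀ j, IsProdS s d (T j)) :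
    ∃ I : Finset (Fin n), I.card = r ∧ ∃ BB : Finset (MvPolynomial (Fin n) F),
      (∀ b ∈ BB, b ≠ 0 ∧ Cls (SS r s d) (DS r d) b) ∧
      ∀ o : Fin n → F, (∀ b ∈ BB, MvPolynomial.eval o b ≠ 0) →
        AlgebraicIndependent F fun j => res I o (T j) := by
  classical
  rcases Nat.eq_zero_or_pos r with hr | hr
  · subst hr
    refine ⟨∅, rfl, ∅, ?_, ?_⟩
    · intro b hb
      exact absurd hb (Finset.notMem_empty b)
    · intro o _
      rw [algebraicIndependent_empty_type_iff]
      exact (MvPolynomial.C_injective (Fin n) F)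
  obtain ⟨I, L, _, _, _, k, o, z, hcard, hok, hgen, hind⟩ := hX T hT
  obtain ⟨V, hVk, hVsep⟩ := hV _ hind
  choose m hm hmT using hprod
  have hTne : ∀ j, T j ≠ 0 := fun j => hT.ne_zero j
  -- the directions
  set e : Fin r ↪o Fin n := I.orderEmbOfFin hcard with he
  have heI : ∀ l, e l ∈ I := fun l => I.orderEmbOfFin_mem hcard l
  have heS : ∀ i ∈ I, ∃ l, e l = i := by
    intro i hi
    have h1 : Set.range e = I := I.range_orderEmbOfFin hcard
    have h2 : i ∈ Set.range e := by
      rw [h1]
      exact hi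
    exact h2
  set BB : Finset (MvPolynomial (Fin n) F) := Finset.univ.biUnion fun j => (m j).toFinset with hBB
  have hBBd : ∀ b ∈ BB, b ≠ 0 ∧ Cls s d b := by
    intro b hb
    rw [hBB, Finset.mem_biUnion] at hb
    obtain ⟨j, _, hb⟩ := hb
    rw [Multiset.mem_toFinset] at hb
    refine ⟨?_, hm j b hb⟩
    rintro rfl
    exact hTne j (by rw [hmT j]; exact Multiset.prod_eq_zero hb)
  obtain ⟨BB', hBB', hiter⟩ := hIT r s d hd e BB hBBd
  refine ⟨I, hcard, BB', hBB', fun o' ho' => ?_⟩
  set v := V.valuation with hv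
  have hvF : ∀ c : F, c ≠ 0 → v (algebraMap F L c) = 1 := by
    intro c hc
    have h1 := hVk (algebraMap F k c) (by
      intro h0
      exact hc ((algebraMap F k).injective (by rw [h0, map_zero])))
    rw [← IsScalarTower.algebraMap_apply F k L] at h1
    exact h1
  have hnt : ∃ a : L, a ≠ 0 ∧ v a ≠ 1 := by
    refine ⟨MvPolynomial.aeval (fun i => o i + if i ∈ I then z i else 0) (T ⟨0, hr⟩),
      hind.ne_zero ⟨0, hr⟩, ?_⟩
    have h1 := hVsep (Finsupp.single ⟨0, hr⟩ 1) 0 (by simp)
    have h2 : ((Finsupp.single (⟨0, hr⟩ : Fin r) 1).prod fun i m =>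
        (MvPolynomial.aeval fun i => o i + if i ∈ I then z i else 0) (T i) ^ m) =
        (MvPolynomial.aeval fun i => o i + if i ∈ I then z i else 0) (T ⟨0, hr⟩) ^ 1 :=
      Finsupp.prod_single_index (pow_zero _)
    rw [h2, pow_one, Finsupp.prod_zero_index, map_one] at h1
    exact h1
  have hg1 : ∀ j : ℕ, Gen F fun i => o i + ∑ l : Fin r,
      if l.val < j ∧ e l = i then z (e l) else 0 := by
    intro j
    have h1 := hgen ((Finset.univ.filter fun l : Fin r => l.val < j).image e) (by
      intro i hi
      rw [Finset.mem_image] at hi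
      obtain ⟨l, _, rfl⟩ := hi
      exact heI l)
    have h2 : (fun i => o i + ∑ l, if l.val < j ∧ e l = i then z (e l) else 0) =
        fun i => o i + if i ∈ (Finset.univ.filter fun l : Fin r => l.val < j).image e
          then z i else 0 := by
      funext i
      congr 1
      refine sum_ite63 e e.injective (fun l => l.val < j) z i _ ?_
      rw [Finset.mem_image]
      simp only [Finset.mem_filter, Finset.mem_univ, true_and]
    rw [h2]
    exact h1
  have hv1 : ∀ b ∈ BB', v (MvPolynomial.aeval o b) =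
      v (MvPolynomial.aeval (fun i => algebraMap F L (o' i)) b) := by
    intro b hb
    have h1 : MvPolynomial.aeval o b ≠ 0 := by
      have h2 := hgen ∅ (Finset.empty_subset _) b (hBB' b hb).1
      simpa using h2
    have h3 : MvPolynomial.aeval o b ∈ k := by
      have h5 : algebraMap k L (MvPolynomial.aeval (fun i => (⟨o i, hok i⟩ : k)) b) =
          MvPolynomial.aeval o b := by
        rw [← MvPolynomial.aeval_algebraMap_apply]
        rfl
      rw [← h5]
      exact SetLike.coe_mem _
    have h6 : v (MvPolynomial.aeval o b) = 1 := by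
      have h7 := hVk ⟨MvPolynomial.aeval o b, h3⟩ (by
        intro h0
        exact h1 (congrArg Subtype.val h0))
      exact h7
    have h8 : MvPolynomial.aeval (fun i => algebraMap F L (o' i)) b =
        algebraMap F L (MvPolynomial.eval o' b) := by
      have h9 := MvPolynomial.aeval_algebraMap_apply L o' b
      have h10 : MvPolynomial.aeval o' b = MvPolynomial.eval o' b :=
        DFunLike.congr_fun (MvPolynomial.coe_aeval_eq_eval o') b
      rw [h10] at h9
      exact h9
    rw [h6, h8, hvF _ (ho' b hb)]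
  obtain ⟨z', hz'⟩ := hiter L V.ValueGroup v hvF hnt o (fun i => algebraMap F L (o' i))
    (fun l => z (e l)) hg1 hv1
  set y : Fin n → L := fun i => o i + ∑ l, if e l = i then z (e l) else 0 with hy
  set y' : Fin n → L := fun i => algebraMap F L (o' i) + ∑ l, if e l = i then z' l else 0
    with hy'
  have hyI : y = fun i => o i + if i ∈ I then z i else 0 := by
    funext i
    rw [hy]
    simp only
    congr 1
    have h1 := sum_ite63 e e.injective (fun _ => True) z i (i ∈ I) (by
      constructor
      · intro hi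
        obtain ⟨l, hl⟩ := heS i hi
        exact ⟨l, trivial, hl⟩
      · rintro ⟨l, _, rfl⟩
        exact heI l)
    simp only [true_and] at h1
    exact h1
  have hval : ∀ j, v (MvPolynomial.aeval y (T j)) = v (MvPolynomial.aeval y' (T j)) := by
    intro j
    rw [hmT j]
    refine val_prod_eq63 v y y' (m j) fun b hb => hz' b ?_
    rw [hBB, Finset.mem_biUnion]
    exact ⟨j, Finset.mem_univ _, by rw [Multiset.mem_toFinset]; exact hb⟩
  have hmon : ∀ α : Fin r →₀ ℕ, v (α.prod fun j m => MvPolynomial.aeval y (T j) ^ m) =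
      v (α.prod fun j m => MvPolynomial.aeval y' (T j) ^ m) := by
    intro α
    rw [Finsupp.prod, Finsupp.prod, map_prod, map_prod]
    refine Finset.prod_congr rfl fun j _ => ?_
    rw [map_pow, map_pow, hval]
  have hind' : AlgebraicIndependent F fun j => MvPolynomial.aeval y' (T j) := by
    refine hI v hvF _ fun α β hαβ => ?_
    rw [← hmon, ← hmon]
    rw [hyI]
    exact hVsep α β hαβ
  -- the point of the plane
  set w : Fin n → L := fun i => ∑ l, if e l = i then z' l else 0 with hw
  have hres : ∀ p, MvPolynomial.aeval w (res I o' p) = MvPolynomial.aeval y' p := by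
    intro p
    have h1 : (MvPolynomial.aeval w).comp (res I o') =
        (MvPolynomial.aeval y' : MvPolynomial (Fin n) F →ₐ[F] L) := by
      apply MvPolynomial.algHom_ext
      intro i
      rw [AlgHom.comp_apply, res, MvPolynomial.aeval_X, MvPolynomial.aeval_X, map_add,
        MvPolynomial.aeval_C]
      rw [hy']
      simp only
      congr 1
      by_cases hi : i ∈ I
      · rw [if_pos hi, MvPolynomial.aeval_X]
      · rw [if_neg hi, map_zero]
        symm
        refine Finset.sum_eq_zero fun l _ => ?_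
        rw [if_neg]
        rintro rfl
        exact hi (heI l)
    exact DFunLike.congr_fun h1 p
  have hfun : (fun j => MvPolynomial.aeval y' (T j)) =
      (MvPolynomial.aeval w : MvPolynomial (Fin n) F →ₐ[F] L) ∘ fun j => res I o' (T j) := by
    funext j
    exact (hres (T j)).symm
  rw [hfun] at hind'
  exact hind'.of_comp _

end SP
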