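import Pool.Agent.Lib.MP_64d474_lc.AK.Steps2
import Pool.Agent.Lib.MP_64d474_lc.AK.Cls35
import Pool.Agent.Lib.MP_64d474_lc.AK.V29
import Pool.Agent.Lib.MP_64d474_lc.AK.X96
import Pool.Agent.Lib.MP_64d474_lc.AK.I90
import Pool.Agent.Lib.MP_64d474_lc.SP.Hit69
import Pool.Agent.Lib.MP_64d474_lc.SP.KS4

/-!
# Products of sparse polynomials of bounded individual degree: the final theorem
-/

set_option autoImplicit false

namespace AK

open Polynomial

universe u

/-- From the general step to the step of the abstract classes. -/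
theorem stepK_of_steps {F : Type u} [Field F] {n : ℕ} {P : ℕ → MvPolynomial (Fin n) F → Prop}
    (hP : Steps P) (j : ℕ) (i : Fin n) : StepK (P j) (P (j + 1)) (Pi.single i 1) := by
  intro BB hBB
  obtain ⟨BB', h1, h2⟩ := hP j i BB hBB
  refine ⟨BB', h1, fun L _ _ _ Γ _ v hv hnt => h2 L Γ v hv ?_⟩
  obtain ⟨a, ha, hva⟩ := hnt
  rcases lt_or_gt_of_ne hva with h | h
  · exact ⟨a, (Valuation.ne_zero_iff v).2 ha, h⟩
  · refine ⟨a⁻¹, (Valuation.ne_zero_iff v).2 (inv_ne_zero ha), ?_⟩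
    rw [map_inv₀]
    exact inv_lt_one_of_one_lt₀ h

/-- Nonvanishing for general classes. -/
theorem nonzero_steps {F : Type u} [Field F] {n : ℕ} {P : ℕ → MvPolynomial (Fin n) F → Prop}
    (hP : Steps P) (hmono : ∀ j b, P j b → P (j + 1) b) {m r : ℕ}
    (T : Fin m → MvPolynomial (Fin n) F) (hprod : ∀ j, IsProdK (P 0) (T j))
    (hr : ∀ s : Finset (Fin m), AlgebraicIndependent F (fun j : s => T j) → s.card ≤ r)
    (h : MvPolynomial (Fin n) F) (hh : h ∈ Algebra.adjoin F (Set.range T)) (h0 : h ≠ 0) :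
    ∃ I : Finset (Fin n), I.card ≤ r ∧ ∃ BB : Finset (MvPolynomial (Fin n) F),
      (∀ b ∈ BB, b ≠ 0 ∧ P r b) ∧
      ∀ o : Fin n → F, (∀ b ∈ BB, MvPolynomial.eval o b ≠ 0) → res I o h ≠ 0 :=
  nonzeroK P (stepK_of_steps hP) hmono (fun t ht => exists_val t ht)
    (fun T hT => exists_split T hT) (fun v hv _ t h => indep_of_val v hv t h) T hprod hr h hh h0

theorem sparse_mono {F : Type*} [Field F] {n s d : ℕ} (hd : 1 ≤ d) (m : ℕ)
    (b : MvPolynomial (Fin n) F) (h : Sparse (SS m (s, d)).1 (SS m (s, d)).2 b) :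
    Sparse (SS (m + 1) (s, d)).1 (SS (m + 1) (s, d)).2 b := by
  have h1 : 1 ≤ (SS m (s, d)).2 := SS_pos48 m s d hd
  rw [SS_succ48]
  generalize SS m (s, d) = q at h h1
  obtain ⟨a, e⟩ := q
  change 1 ≤ e at h1
  change b.support.card ≤ ((e + 1) * (e + 1) * a + 1) ^ (2 * e ^ 2 * (e + 1)) ∧
    ∀ i, b.degreeOf i ≤ 2 * e ^ 2 * (e + 1) * e
  refine ⟨h.1.trans ?_, fun i => (h.2 i).trans ?_⟩
  · change a ≤ _
    have h2 : a ≤ (e + 1) * (e + 1) * a + 1 := by nlinarith [Nat.zero_le (a * e)]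
    refine h2.trans (Nat.le_self_pow ?_ _)
    positivity
  · change e ≤ _
    have h2 : 1 ≤ 2 * e ^ 2 * (e + 1) := by
      have : 0 < 2 * e ^ 2 * (e + 1) := by positivity
      omega
    nlinarith

end AK

namespace SP

open AK

universe u

/-- Products of `s`-sparse polynomials of individual degree at most `d`: the final theorem. -/
theorem hit_final {F : Type u} [Field F] [CharZero F] {n m r s d N p K : ℕ} (hn : 0 < n)
    (hd : 1 ≤ d) (hp : p.Prime) (hK : n * (AK.SS r (s, d)).1 ^ 2 < K) (hKp : K ≤ p)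
    (hdp : (AK.SS r (s, d)).2 < p)
    (T : Fin m → MvPolynomial (Fin n) F)
    (hprod : ∀ j, ∃ t : Multiset (MvPolynomial (Fin n) F), (∀ q ∈ t, Sparse s d q) ∧
      T j = t.prod)
    (hr : ∀ t : Finset (Fin m), AlgebraicIndependent F (fun j : t => T j) → t.card ≤ r)
    (h : MvPolynomial (Fin n) F) (hh : h ∈ Algebra.adjoin F (Set.range T)) (h0 : h ≠ 0)
    (hN : h.totalDegree ≤ N) :
    ∃ (y z : ℕ) (J : Fin r → Fin n) (w : Fin r → ℕ), y ≤ N * (p - 1) ∧ z ≤ N * (K - 1) ∧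
      (∀ j, w j ≤ N) ∧
      MvPolynomial.eval (fun i => (ksPt n p K (y : F) (z : F) i) +
        ∑ j, if J j = i then (w j : F) else 0) h ≠ 0 := by
  obtain ⟨I, hI, BB, hBB, hres⟩ := nonzero_steps (steps_sparse (F := F) (n := n) (s := s) hd)
    (sparse_mono hd) T hprod hr h hh h0
  refine hit_sparse hn hp.pos I hI BB (fun b hb => ?_) h hN hres
  exact ks_ne_zero hp hK hKp b (hBB b hb).1 (hBB b hb).2.1
    (fun i => lt_of_le_of_lt ((hBB b hb).2.2 i) hdp)

end SP
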