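import Pool.Agent.Lib.MP_64d474_lc.SP.BT69

/-!
# The sparse theorem with closed bounds
-/

set_option autoImplicit false

namespace SP

open MvPolynomial

universe u

/-- The exponent. -/
def MM (r d : ℕ) : ℕ := 4 ^ ((4 ^ r - 1) / 3) * d ^ 4 ^ r

theorem four_pow_div (r : ℕ) : (4 ^ (r + 1) - 1) / 3 = 4 * ((4 ^ r - 1) / 3) + 1 := by
  have h1 : 4 ^ r % 3 = 1 := by
    rw [Nat.pow_mod]
    norm_num
  have h : 1 ≤ 4 ^ r := Nat.one_le_pow _ _ (by norm_num)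
  rw [pow_succ]
  omega

theorem MM_succ (r d : ℕ) : MM (r + 1) d = 4 * MM r d ^ 4 := by
  rw [MM, four_pow_div, MM, mul_pow, ← pow_mul, ← pow_mul, pow_succ 4 r, pow_succ,
    mul_comm 4 ((4 ^ r - 1) / 3)]
  ring

theorem MM_pos {r d : ℕ} (hd : 1 ≤ d) : 1 ≤ MM r d := by
  rw [MM]
  have : 0 < d := hd
  exact Nat.succ_le_of_lt (by positivity)

theorem MM_mono {r d : ℕ} (hd : 1 ≤ d) : MM r d ≤ MM (r + 1) d := by
  have h1 := MM_pos (r := r) hd
  rw [MM_succ]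
  calc MM r d ≤ MM r d ^ 4 := Nat.le_self_pow (by norm_num) _
    _ ≤ 4 * MM r d ^ 4 := by omega

theorem SS_snd_le (s : ℕ) {d : ℕ} (r : ℕ) : (AK.SS r (s, d)).2 ≤ MM r d ∨ d = 0 := by
  rcases Nat.eq_zero_or_pos d with h0 | hd
  · exact Or.inr h0
  left
  induction r with
  | zero => simp [AK.SS, MM]
  | succ r ih =>
    rw [AK.SS_succ48, MM_succ]
    change 2 * (AK.SS r (s, d)).2 ^ 2 * ((AK.SS r (s, d)).2 + 1) * (AK.SS r (s, d)).2 ≤ _
    have h1 : 1 ≤ MM r d := MM_pos hd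
    calc 2 * (AK.SS r (s, d)).2 ^ 2 * ((AK.SS r (s, d)).2 + 1) * (AK.SS r (s, d)).2
        ≤ 2 * MM r d ^ 2 * (MM r d + 1) * MM r d := by gcongr
      _ ≤ 2 * MM r d ^ 2 * (MM r d + MM r d) * MM r d := by gcongr
      _ = 4 * MM r d ^ 4 := by ring

theorem SS_fst_le {s d : ℕ} (hs : 1 ≤ s) (hd : 1 ≤ d) (r : ℕ) : ∀ B : ℕ,
    5 * MM r d ^ 2 * s ≤ B → (AK.SS r (s, d)).1 ≤ B ^ (3 * MM r d - 2) := by
  induction r with
  | zero =>
    intro B hB
    have e : MM 0 d = d := by simp [MM]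
    rw [e] at hB ⊢
    have h1 : s ≤ B := by
      refine le_trans ?_ hB
      have : 1 ≤ 5 * d ^ 2 := by
        have : 0 < d := hd
        exact Nat.succ_le_of_lt (by positivity)
      calc s = 1 * s := (one_mul s).symm
        _ ≤ 5 * d ^ 2 * s := Nat.mul_le_mul_right _ this
    exact h1.trans (Nat.le_self_pow (by omega) _)
  | succ r ih =>
    intro B hB
    have hM1 : 1 ≤ MM r d := MM_pos hd
    have hmono : 5 * MM r d ^ 2 * s ≤ B := by
      refine le_trans ?_ hB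
      have := MM_mono (r := r) hd
      gcongr
    have ih' := ih B hmono
    have hdd := (SS_snd_le s (d := d) r).resolve_right (by omega)
    have hB1 : 5 * MM r d ^ 2 ≤ B := by
      refine le_trans ?_ hmono
      exact Nat.le_mul_of_pos_right _ hs
    have hBpos : 1 ≤ B := le_trans (by nlinarith) hB1
    rw [AK.SS_succ48]
    change (((AK.SS r (s, d)).2 + 1) * ((AK.SS r (s, d)).2 + 1) * (AK.SS r (s, d)).1 + 1) ^
      (2 * (AK.SS r (s, d)).2 ^ 2 * ((AK.SS r (s, d)).2 + 1)) ≤ _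
    set a := 3 * MM r d - 2 with ha
    have h1 : ((AK.SS r (s, d)).2 + 1) * ((AK.SS r (s, d)).2 + 1) * (AK.SS r (s, d)).1 + 1 ≤
        B ^ (a + 1) := by
      calc ((AK.SS r (s, d)).2 + 1) * ((AK.SS r (s, d)).2 + 1) * (AK.SS r (s, d)).1 + 1
          ≤ (MM r d + MM r d) * (MM r d + MM r d) * B ^ a + 1 := by gcongr
        _ ≤ 5 * MM r d ^ 2 * B ^ a := by
            have h2 : 1 ≤ MM r d ^ 2 * B ^ a := by
              have h3 : 1 ≤ B ^ a := Nat.one_le_pow _ _ hBpos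
              have h4 : 1 ≤ MM r d ^ 2 := Nat.one_le_pow _ _ hM1
              nlinarith
            nlinarith
        _ ≤ B * B ^ a := Nat.mul_le_mul_right _ hB1
        _ = B ^ (a + 1) := by ring
    have h5 : 2 * (AK.SS r (s, d)).2 ^ 2 * ((AK.SS r (s, d)).2 + 1) ≤ 4 * MM r d ^ 3 := by
      calc 2 * (AK.SS r (s, d)).2 ^ 2 * ((AK.SS r (s, d)).2 + 1)
          ≤ 2 * MM r d ^ 2 * (MM r d + MM r d) := by gcongr
        _ = 4 * MM r d ^ 3 := by ring
    calc (((AK.SS r (s, d)).2 + 1) * ((AK.SS r (s, d)).2 + 1) * (AK.SS r (s, d)).1 + 1) ^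
          (2 * (AK.SS r (s, d)).2 ^ 2 * ((AK.SS r (s, d)).2 + 1))
        ≤ (B ^ (a + 1)) ^ (2 * (AK.SS r (s, d)).2 ^ 2 * ((AK.SS r (s, d)).2 + 1)) :=
          Nat.pow_le_pow_left h1 _
      _ ≤ (B ^ (a + 1)) ^ (4 * MM r d ^ 3) :=
          Nat.pow_le_pow_right (Nat.one_le_pow _ _ hBpos) h5
      _ = B ^ ((a + 1) * (4 * MM r d ^ 3)) := by rw [← pow_mul]
      _ ≤ B ^ (3 * MM (r + 1) d - 2) := by
          refine Nat.pow_le_pow_right hBpos ?_
          rw [MM_succ, ha]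
          obtain ⟨x, hx⟩ : ∃ x, MM r d = x + 1 := ⟨MM r d - 1, by omega⟩
          rw [hx]
          have e1 : 3 * (x + 1) - 2 + 1 = 3 * x + 2 := by omega
          rw [e1]
          apply Nat.le_sub_of_add_le
          nlinarith [Nat.zero_le x, Nat.zero_le (x ^ 2), Nat.zero_le (x ^ 3)]

/-- The final theorem with closed bounds. -/
theorem hit_closed {F : Type u} [Field F] [CharZero F] {n m r s d N : ℕ} (hn : 0 < n)
    (hs : 1 ≤ s) (hd : 1 ≤ d)
    (T : Fin m → MvPolynomial (Fin n) F)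
    (hprod : ∀ j, ∃ t : Multiset (MvPolynomial (Fin n) F), (∀ q ∈ t, AK.Sparse s d q) ∧
      T j = t.prod)
    (hr : ∀ t : Finset (Fin m), AlgebraicIndependent F (fun j : t => T j) → t.card ≤ r)
    (h : MvPolynomial (Fin n) F) (hh : h ∈ Algebra.adjoin F (Set.range T)) (h0 : h ≠ 0)
    (hN : h.totalDegree ≤ N) :
    ∃ (t : ℕ) (J : Fin r → Fin n) (w : Fin r → ℕ),
      t ≤ N * ((5 * MM r d ^ 2 * s) ^ (3 * MM r d) - 1) ∧ (∀ j, w j ≤ N) ∧
      MvPolynomial.eval (fun i : Fin n => btPt ((5 * MM r d ^ 2 * s) ^ (3 * MM r d)) (t : F)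
        (i : ℕ) + ∑ j, if J j = i then (w j : F) else 0) h ≠ 0 := by
  obtain ⟨I, hI, BB, hBB, hres⟩ := AK.nonzero_steps
    (AK.steps_sparse (F := F) (n := n) (s := s) hd) (AK.sparse_mono hd) T hprod hr h hh h0
  refine hit_bt hn I hI BB (fun b hb => ⟨(hBB b hb).1, ?_⟩) h hN hres
  refine (hBB b hb).2.1.trans ((SS_fst_le hs hd r _ le_rfl).trans ?_)
  refine Nat.pow_le_pow_right ?_ (Nat.sub_le _ _)
  have h1 : 1 ≤ MM r d := MM_pos hd
  have : 0 < 5 * MM r d ^ 2 * s := by positivity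
  exact this

end SP
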