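import Pool.Agent.Lib.MP_64d474_lc.AK.Cls35
import Pool.Agent.Lib.MP_64d474_lc.SP.Defs48

/-!
# Row Z0 from row ST0
-/

set_option autoImplicit false

namespace SP

open Polynomial AK

universe u

/-- The statement of row ST0. -/
def StepHyp0 (F : Type u) [Field F] (n : ℕ) : Prop :=
  ∀ (i : Fin n) (s d : ℕ), 1 ≤ d →
    ∀ (BB : Finset (MvPolynomial (Fin n) F)), (∀ b ∈ BB, b ≠ 0 ∧ Cls s d b) →
    ∃ BB' : Finset (MvPolynomial (Fin n) F), (∀ b ∈ BB', b ≠ 0 ∧ Cls (fs s d) (fd d) b) ∧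
      ∀ (L : Type u) [Field L] [IsAlgClosed L] [Algebra F L] (Γ : Type u)
        [LinearOrderedCommGroupWithZero Γ] (v : Valuation L Γ),
        (∀ c : F, c ≠ 0 → v (algebraMap F L c) = 1) → (∃ a : L, a ≠ 0 ∧ v a ≠ 1) →
        ∀ x x' : Fin n → L, Gen F x →
        (∀ b ∈ BB', v (MvPolynomial.aeval x b) = v (MvPolynomial.aeval x' b)) →
        ∀ z : L,
        ∃ z' : L, ∀ b ∈ BB,
          v (MvPolynomial.aeval (mv x z (Pi.single i (1 : F))) b) =
            v (MvPolynomial.aeval (mv x' z' (Pi.single i (1 : F))) b)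

theorem DS_succ (j : ℕ) : ∀ d : ℕ, DS (j + 1) d = fd (DS j d) := by
  induction j with
  | zero => intro d; rfl
  | succ j ih => intro d; rw [DS, ih, DS]

theorem SS_succ (j : ℕ) : ∀ s d : ℕ, SS (j + 1) s d = fs (SS j s d) (DS j d) := by
  induction j with
  | zero => intro s d; rfl
  | succ j ih => intro s d; rw [SS, ih, SS, DS]

theorem le_fd {d : ℕ} (hd : 1 ≤ d) : d ≤ fd d := by
  have h1 : 1 ≤ 2 * d ^ 2 * (d + 1) := Nat.mul_pos (Nat.mul_pos (by norm_num) (Nat.pow_pos hd))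
    (Nat.succ_pos d)
  calc d = d * 1 := (mul_one d).symm
    _ ≤ d * (2 * d ^ 2 * (d + 1)) := Nat.mul_le_mul_left d h1
    _ = fd d := by rw [fd]; ring

theorem one_le_DS (j : ℕ) : ∀ {d : ℕ}, 1 ≤ d → 1 ≤ DS j d := by
  induction j with
  | zero => intro d hd; exact hd
  | succ j ih => intro d hd; exact ih (hd.trans (le_fd hd))

theorem le_fs {s d : ℕ} (hd : 1 ≤ d) : s ≤ fs s d := by
  have h1 : s ≤ (d + 1) ^ 2 * s + 1 :=
    (Nat.le_mul_of_pos_left s (Nat.pow_pos (Nat.succ_pos d))).trans (Nat.le_succ _)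
  have h2 : 2 * d ^ 2 * (d + 1) ≠ 0 := by
    have : 0 < 2 * d ^ 2 * (d + 1) := Nat.mul_pos (Nat.mul_pos (by norm_num) (Nat.pow_pos hd))
      (Nat.succ_pos d)
    omega
  exact h1.trans (Nat.le_self_pow h2 _)

theorem Cls.mono {F : Type*} [Field F] {n : ℕ} {s s' d d' : ℕ} (hs : s ≤ s') (hd : d ≤ d')
    {b : MvPolynomial (Fin n) F} (h : Cls s d b) : Cls s' d' b :=
  ⟨h.1.trans hs, fun i => (h.2 i).trans hd⟩

/-- Row Z0 from row ST0 and the rows V, X, I. -/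
theorem nonzero_of_step {F : Type u} [Field F] {n : ℕ} (hstep : StepHyp0 F n)
    (hval : ValHyp90.{u}) (hsplit : SplitHyp90 F n) (hind : IndHyp90.{u})
    {m r s d : ℕ} (hd : 1 ≤ d)
    (T : Fin m → MvPolynomial (Fin n) F) (hprod : ∀ j, IsProdS s d (T j))
    (hr : ∀ t : Finset (Fin m), AlgebraicIndependent F (fun j : t => T j) → t.card ≤ r)
    (h : MvPolynomial (Fin n) F) (hh : h ∈ Algebra.adjoin F (Set.range T)) (h0 : h ≠ 0) :
    ∃ I : Finset (Fin n), I.card ≤ r ∧ ∃ BB : Finset (MvPolynomial (Fin n) F),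
      (∀ b ∈ BB, b ≠ 0 ∧ Cls (SS r s d) (DS r d) b) ∧
      ∀ o : Fin n → F, (∀ b ∈ BB, MvPolynomial.eval o b ≠ 0) → res I o h ≠ 0 := by
  refine nonzeroK (fun j b => Cls (SS j s d) (DS j d) b) ?_ ?_ hval hsplit hind T hprod hr h hh h0
  · intro j i BB hBB
    obtain ⟨BB', h1, h2⟩ := hstep i (SS j s d) (DS j d) (one_le_DS j hd) BB hBB
    refine ⟨BB', fun b hb => ⟨(h1 b hb).1, ?_⟩, ?_⟩
    · have h3 := (h1 b hb).2
      rw [← SS_succ, ← DS_succ] at h3
      exact h3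
    · intro L _ _ _ Γ _ v hv hnt x x' hx hB z _
      exact h2 L Γ v hv hnt x x' hx hB z
  · intro j b hb
    refine hb.mono ?_ ?_
    · rw [SS_succ]; exact le_fs (one_le_DS j hd)
    · rw [DS_succ]; exact le_fd (one_le_DS j hd)

end SP
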